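import Pool.Agent.Results.MP_890457_co.FaithfulDim
import Pool.Agent.Y660.FD.Up2

/-!
# The faithful dimension of bipartite graphs

Every bipartite graph in which the vertices of one side have degree at most `d` has faithful
dimension at most `d + 1`, and for every `d ≥ 3` the value `d + 1` is attained by a connected
bipartite graph of maximum degree `d`. So the inequality `Dim G ≤ Δ(G)` of Erdős and Simonovits is
false for every value `d ≥ 3` of the maximum degree, and for bipartite graphs the exact maximum of
`Dim G` is `d + 1`. On the other hand the inequality is true for all bipartite graphs of maximum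
degree `d ≥ 2` in which no three vertices have the same `d` neighbours.
-/

set_option autoImplicit false

namespace Pool.Agent.Results.MP_890457_co.BipartiteExact

open Pool.Agent.Results.MP_890457_co.FaithfulDim

/-- **(1)** (upper bound, only the degrees on one side matter) Let `d ≥ 1` and let `G` be a finite
graph with a proper colouring `c` by `true` and `false` such that every vertex of colour `true`
has at most `d` neighbours (no condition on the other side). Then `G` is an induced subgraph of
the unit distance graph of `ℝ^(d+1)`; so its faithful dimension is at most `d + 1`.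

**(2)** (exact value; in particular the conjecture `Dim G ≤ Δ(G)` is false) For every `d ≥ 3` the
number `d + 1` is the largest faithful dimension of a finite bipartite graph of maximum degree
`d`, and it is attained by a connected one.

**(3)** (when `d` dimensions suffice) Let `d ≥ 2`, and let `G`, `c` be as in (1). If no three
vertices of colour `true` have the same `d` neighbours, then `G` is an induced subgraph of the unit
distance graph of `ℝ^d`; so its faithful dimension is at most `d`.

**(4)** In particular the inequality `Dim G ≤ Δ(G)` is true for every finite bipartite graph of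
maximum degree `d ≥ 2` in which no three vertices of degree `d` have the same neighbours. -/
theorem result :
    (∀ d : ℕ, 1 ≤ d → ∀ (V : Type) [Finite V] (G : SimpleGraph V) (c : V → Bool),
      (∀ u v, G.Adj u v → c u ≠ c v) →
      (∀ v, c v = true → (G.neighborSet v).ncard ≤ d) →
      IsFaithfulIn G (d + 1) ∧ faithfulDim G ≤ d + 1) ∧
    (∀ d : ℕ, 3 ≤ d →
      (∃ (V : Type) (_ : Fintype V) (_ : DecidableEq V) (G : SimpleGraph V)
        (_ : DecidableRel G.Adj), G.Connected ∧ G.Colorable 2 ∧ G.maxDegree = d ∧
        faithfulDim G = d + 1) ∧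
      ∀ (V : Type) [Fintype V] (G : SimpleGraph V) [DecidableRel G.Adj], G.Colorable 2 →
        G.maxDegree = d → faithfulDim G ≤ d + 1) ∧
    (∀ d : ℕ, 2 ≤ d → ∀ (V : Type) [Finite V] (G : SimpleGraph V) (c : V → Bool),
      (∀ u v, G.Adj u v → c u ≠ c v) →
      (∀ v, c v = true → (G.neighborSet v).ncard ≤ d) →
      (∀ u v w : V, u ≠ v → u ≠ w → v ≠ w → c u = true → c v = true → c w = true →
        (G.neighborSet u).ncard = d → G.neighborSet u = G.neighborSet v →
        G.neighborSet u = G.neighborSet w → False) →
      IsFaithfulIn G d ∧ faithfulDim G ≤ d) ∧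
    (∀ (V : Type) [Fintype V] (G : SimpleGraph V) [DecidableRel G.Adj], G.Colorable 2 →
      2 ≤ G.maxDegree →
      (∀ u v w : V, u ≠ v → u ≠ w → v ≠ w → G.degree u = G.maxDegree →
        G.neighborSet u = G.neighborSet v → G.neighborSet u = G.neighborSet w → False) →
      faithfulDim G ≤ G.maxDegree) := by
  have col : ∀ (V : Type) (G : SimpleGraph V), G.Colorable 2 →
      ∃ c : V → Bool, ∀ u v, G.Adj u v → c u ≠ c v := by
    rintro V G ⟨C⟩
    refine ⟨fun v => decide (C v = 0), ?_⟩
    intro u v huv h
    have h1 := C.valid huv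
    simp only [decide_eq_decide] at h
    have hu : (C u).val < 2 := (C u).isLt
    have hv : (C v).val < 2 := (C v).isLt
    apply h1
    by_cases h0 : C u = 0
    · rw [h0, h.mp h0]
    · have h0' : C v ≠ 0 := fun h' => h0 (h.mpr h')
      have a1 : (C u).val ≠ 0 := fun h' => h0 (Fin.ext h')
      have a2 : (C v).val ≠ 0 := fun h' => h0' (Fin.ext h')
      apply Fin.ext
      omega
  have degc : ∀ (V : Type) [Fintype V] (G : SimpleGraph V) [DecidableRel G.Adj] (v : V),
      (G.neighborSet v).ncard = G.degree v := by
    intro V _ G _ v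
    rw [← SimpleGraph.card_neighborSet_eq_degree, Set.ncard_eq_toFinset_card',
      Set.toFinset_card]
  have three : ∀ d : ℕ, 2 ≤ d → ∀ (V : Type) [Finite V] (G : SimpleGraph V) (c : V → Bool),
      (∀ u v, G.Adj u v → c u ≠ c v) →
      (∀ v, c v = true → (G.neighborSet v).ncard ≤ d) →
      (∀ u v w : V, u ≠ v → u ≠ w → v ≠ w → c u = true → c v = true → c w = true →
        (G.neighborSet u).ncard = d → G.neighborSet u = G.neighborSet v →
        G.neighborSet u = G.neighborSet w → False) →
      IsFaithfulIn G d ∧ faithfulDim G ≤ d := by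
    intro d hd V _ G c hc hdeg htw
    have := Fintype.ofFinite V
    obtain ⟨e, rfl⟩ : ∃ e, d = e + 2 := ⟨d - 2, by omega⟩
    have h : IsFaithfulIn G (e + 2) := Pool.Agent.Y660.FD.bip2 G c hc e hdeg htw
    exact ⟨h, Nat.sInf_le h⟩
  have up : ∀ d : ℕ, 1 ≤ d → ∀ (V : Type) [Finite V] (G : SimpleGraph V) (c : V → Bool),
      (∀ u v, G.Adj u v → c u ≠ c v) →
      (∀ v, c v = true → (G.neighborSet v).ncard ≤ d) →
      IsFaithfulIn G (d + 1) ∧ faithfulDim G ≤ d + 1 := by
    intro d hd V _ G c hc hdeg
    have := Fintype.ofFinite V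
    obtain ⟨e, rfl⟩ : ∃ e, d = e + 1 := ⟨d - 1, by omega⟩
    have h : IsFaithfulIn G (e + 1 + 1) := Pool.Agent.Y660.FD.bip G c hc e hdeg
    exact ⟨h, Nat.sInf_le h⟩
  have up2 : ∀ d : ℕ, 3 ≤ d → ∀ (V : Type) [Fintype V] (G : SimpleGraph V)
      [DecidableRel G.Adj], G.Colorable 2 → G.maxDegree = d → faithfulDim G ≤ d + 1 := by
    intro d hd V _ G _ hcol hmax
    obtain ⟨c, hc⟩ := col V G hcol
    refine (up d (by omega) V G c hc fun v _ => ?_).2
    rw [degc, ← hmax]
    exact G.degree_le_maxDegree v
  refine ⟨up, fun d hd => ⟨?_, up2 d hd⟩, three, ?_⟩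
  rotate_left
  · intro V _ G _ hcol h2 htw
    obtain ⟨c, hc⟩ := col V G hcol
    refine (three G.maxDegree h2 V G c hc (fun v _ => ?_) ?_).2
    · rw [degc]; exact G.degree_le_maxDegree v
    · intro u v w h1 h2 h3 _ _ _ h4 h5 h6
      rw [degc] at h4
      exact htw u v w h1 h2 h3 h4 h5 h6
  refine ⟨Fin d ⊕ Fin d, inferInstance, inferInstance, Gd d, inferInstance,
    Gd_connected d hd, ?_, Gd_maxDegree d hd, ?_⟩
  · refine ⟨SimpleGraph.Coloring.mk (fun v => Sum.elim (fun _ => (0 : Fin 2)) (fun _ => 1) v) ?_⟩
    intro u v huv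
    rcases u with i | i <;> rcases v with j | j
    · exact absurd huv (Gd_ll i j)
    · simp
    · simp
    · exact absurd huv (Gd_rr i j)
  · have hcol : (Gd d).Colorable 2 := by
      refine ⟨SimpleGraph.Coloring.mk (fun v => Sum.elim (fun _ => (0 : Fin 2)) (fun _ => 1) v) ?_⟩
      intro u v huv
      rcases u with i | i <;> rcases v with j | j
      · exact absurd huv (Gd_ll i j)
      · simp
      · simp
      · exact absurd huv (Gd_rr i j)
    apply le_antisymm (up2 d hd _ (Gd d) hcol (Gd_maxDegree d hd))
    have hmem : faithfulDim (Gd d) ∈ {k : ℕ | IsFaithfulIn (Gd d) k} :=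
      Nat.sInf_mem (exists_faithful d)
    by_contra hcon
    push Not at hcon
    obtain ⟨φ, hinj, hφ⟩ := hmem
    apply lower d hd (by omega) (fun i => φ (Sum.inl i)) (fun j => φ (Sum.inr j))
      (fun x y h => Sum.inl_injective (hinj h)) (fun x y h => Sum.inr_injective (hinj h))
    intro i j
    rw [hφ _ _ Sum.inl_ne_inr, Gd_lr]

end Pool.Agent.Results.MP_890457_co.BipartiteExact
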